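import Mathlib

/-!
# Counting lemmas
-/

namespace Pool.Agent.H106R3.SM

open Finset

/-- Boolean functions which agree on `D`. -/
lemma card_agree {ι : Type*} [Fintype ι] [DecidableEq ι] (D : Finset ι) (T : Finset (ι → Bool))
    (hT : ∀ x ∈ T, ∀ y ∈ T, ∀ i ∈ D, x i = y i) :
    T.card * 2 ^ D.card ≤ 2 ^ Fintype.card ι := by
  classical
  have h1 : (T ×ˢ (univ : Finset (D → Bool))).card ≤ (univ : Finset (ι → Bool)).card := by
    apply Finset.card_le_card_of_injOn
      (fun p : (ι → Bool) × (D → Bool) => fun i => if h : i ∈ D then p.2 ⟨i, h⟩ else p.1 i)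
    · intro _ _; simp
    · rintro ⟨x, g⟩ hx ⟨y, g'⟩ hy hxy
      simp only [coe_product, Set.mem_prod, mem_coe] at hx hy
      have hx1 : x ∈ T := hx.1
      have hy1 : y ∈ T := hy.1
      have e : ∀ i, (if h : i ∈ D then g ⟨i, h⟩ else x i) = (if h : i ∈ D then g' ⟨i, h⟩ else y i) :=
        fun i => congrFun hxy i
      have hg : g = g' := by
        funext ⟨i, hi⟩
        have := e i
        simpa [hi] using this
      have hxy' : x = y := by
        funext i
        by_cases hi : i ∈ D
        · exact hT x hx1 y hy1 i hi
        · have := e i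
          simpa [hi] using this
      rw [hg, hxy']
  rw [card_product] at h1
  simpa using h1

variable {G : Type*} [AddCommGroup G] [Fintype G] [DecidableEq G]

/-- Main counting lemma: a memory with few states does not know many of the bits on the
diagonal number `l`, for most `l`. -/
lemma count_phase {S : Type*} [Fintype S] [DecidableEq S] (σ : (G × G → Bool) → S)
    (J : S → G → Finset G) (R : S → G → (G × G → Bool) → Prop)
    (hR : ∀ s l x y, R s l x → R s l y → ∀ j ∈ J s l, x (j, l + j) = y (j, l + j))
    (h k : ℕ) [DecidablePred fun p : (G × G → Bool) × G => R (σ p.1) p.2 p.1 ∧ h ≤ (J (σ p.1) p.2).card] :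
    ((univ : Finset ((G × G → Bool) × G)).filter
      (fun p => R (σ p.1) p.2 p.1 ∧ h ≤ (J (σ p.1) p.2).card)).card * 2 ^ (h * k) ≤
      Fintype.card (G × G → Bool) * k * 2 ^ (h * k) +
        Fintype.card G * (Fintype.card S * 2 ^ Fintype.card G * Fintype.card (G × G → Bool)) := by
  classical
  set Λ : (G × G → Bool) → Finset G := fun x =>
    univ.filter (fun l => R (σ x) l x ∧ h ≤ (J (σ x) l).card) with hΛ
  set B : Finset (G × G → Bool) := univ.filter (fun x => k ≤ (Λ x).card) with hB
  -- the bad set is small
  have hBcard : B.card * 2 ^ (h * k) ≤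
      Fintype.card S * 2 ^ Fintype.card G * Fintype.card (G × G → Bool) := by
    set T : S × Finset G → Finset (G × G → Bool) := fun q =>
      univ.filter (fun x => ∀ l ∈ q.2, R q.1 l x ∧ h ≤ (J q.1 l).card) with hT
    have hsub : B ⊆ ((univ : Finset S) ×ˢ (powersetCard k (univ : Finset G))).biUnion T := by
      intro x hx
      rw [hB, mem_filter] at hx
      obtain ⟨L, hL1, hL2⟩ := Finset.exists_subset_card_eq hx.2
      rw [mem_biUnion]
      refine ⟨(σ x, L), ?_, ?_⟩
      · simp [mem_powersetCard, hL2]
      · rw [hT]
        simp only [mem_filter, mem_univ, true_and]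
        intro l hl
        have := hL1 hl
        rw [hΛ] at this
        simpa using this
    have hTc : ∀ q ∈ (univ : Finset S) ×ˢ (powersetCard k (univ : Finset G)),
        (T q).card * 2 ^ (h * k) ≤ Fintype.card (G × G → Bool) := by
      rintro ⟨s, L⟩ hq
      have hLk : L.card = k := by
        have := (mem_product.1 hq).2
        exact (mem_powersetCard.1 this).2
      by_cases hne : (T (s, L)).Nonempty
      · obtain ⟨x0, hx0⟩ := hne
        have hx0' : ∀ l ∈ L, R s l x0 ∧ h ≤ (J s l).card := by
          rw [hT] at hx0
          simpa using hx0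
        set D : Finset (G × G) := L.biUnion (fun l => (J s l).image (fun j => (j, l + j))) with hD
        have hDc : h * k ≤ D.card := by
          rw [hD, card_biUnion]
          · calc h * k = ∑ _l ∈ L, h := by rw [sum_const, smul_eq_mul, hLk, mul_comm]
              _ ≤ ∑ l ∈ L, ((J s l).image (fun j => (j, l + j))).card := by
                apply sum_le_sum
                intro l hl
                rw [card_image_of_injective]
                · exact (hx0' l hl).2
                · intro a b hab
                  exact (Prod.mk.inj hab).1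
          · intro l _ l' _ hll'
            rw [Function.onFun, Finset.disjoint_left]
            intro p hp hp'
            rw [mem_image] at hp hp'
            obtain ⟨j, _, rfl⟩ := hp
            obtain ⟨j', _, he⟩ := hp'
            have h1 := (Prod.mk.inj he).1
            have h2 := (Prod.mk.inj he).2
            subst h1
            exact hll' (add_right_cancel h2).symm
        have := card_agree D (T (s, L)) (by
          intro x hx y hy p hp
          rw [hT] at hx hy
          simp only [mem_filter, mem_univ, true_and] at hx hy
          rw [hD, mem_biUnion] at hp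
          obtain ⟨l, hl, hp⟩ := hp
          rw [mem_image] at hp
          obtain ⟨j, hj, rfl⟩ := hp
          exact hR s l x y (hx l hl).1 (hy l hl).1 j hj)
        calc (T (s, L)).card * 2 ^ (h * k) ≤ (T (s, L)).card * 2 ^ D.card :=
              Nat.mul_le_mul_left _ (Nat.pow_le_pow_right (by norm_num) hDc)
          _ ≤ _ := by simpa using this
      · rw [Finset.not_nonempty_iff_eq_empty] at hne
        rw [hne]; simp
    calc B.card * 2 ^ (h * k)
        ≤ (∑ q ∈ (univ : Finset S) ×ˢ (powersetCard k (univ : Finset G)), (T q).card) * 2 ^ (h * k) :=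
          Nat.mul_le_mul_right _ ((card_le_card hsub).trans card_biUnion_le)
      _ = ∑ q ∈ (univ : Finset S) ×ˢ (powersetCard k (univ : Finset G)), (T q).card * 2 ^ (h * k) := by
          rw [sum_mul]
      _ ≤ ∑ _q ∈ (univ : Finset S) ×ˢ (powersetCard k (univ : Finset G)),
            Fintype.card (G × G → Bool) := sum_le_sum hTc
      _ = (Fintype.card S * (powersetCard k (univ : Finset G)).card) *
            Fintype.card (G × G → Bool) := by
          rw [sum_const, card_product, smul_eq_mul, card_univ]
      _ ≤ _ := by
          apply Nat.mul_le_mul_right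
          apply Nat.mul_le_mul_left
          rw [card_powersetCard, card_univ]
          exact Nat.choose_le_two_pow _ _
  -- count the pairs
  have hpairs : ((univ : Finset ((G × G → Bool) × G)).filter
      (fun p => R (σ p.1) p.2 p.1 ∧ h ≤ (J (σ p.1) p.2).card)).card = ∑ x, (Λ x).card := by
    rw [card_filter, Fintype.sum_prod_type]
    apply sum_congr rfl
    intro x _
    rw [hΛ, card_filter]
    refine sum_congr rfl (fun y _ => ?_)
    split_ifs <;> first | rfl | contradiction
  have hle : ∑ x, (Λ x).card ≤ Fintype.card (G × G → Bool) * k + Fintype.card G * B.card := by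
    have : ∀ x, (Λ x).card ≤ k + (if x ∈ B then Fintype.card G else 0) := by
      intro x
      by_cases hx : x ∈ B
      · simp only [hx, if_true]
        exact (card_le_univ _).trans (Nat.le_add_left _ _)
      · simp only [hx, if_false, add_zero]
        rw [hB, mem_filter] at hx
        simp only [mem_univ, true_and, not_le] at hx
        exact hx.le
    calc ∑ x, (Λ x).card ≤ ∑ x, (k + (if x ∈ B then Fintype.card G else 0)) :=
          sum_le_sum (fun x _ => this x)
      _ = Fintype.card (G × G → Bool) * k + Fintype.card G * B.card := by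
          rw [sum_add_distrib, sum_const, smul_eq_mul, card_univ]
          congr 1
          rw [sum_ite_mem, univ_inter, sum_const, smul_eq_mul, mul_comm]
  calc _ = (∑ x, (Λ x).card) * 2 ^ (h * k) := by rw [hpairs]
    _ ≤ (Fintype.card (G × G → Bool) * k + Fintype.card G * B.card) * 2 ^ (h * k) :=
        Nat.mul_le_mul_right _ hle
    _ = Fintype.card (G × G → Bool) * k * 2 ^ (h * k) + Fintype.card G * (B.card * 2 ^ (h * k)) := by
        ring
    _ ≤ _ := Nat.add_le_add_left (Nat.mul_le_mul_left _ hBcard) _

/-- resampling one coordinate. -/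
lemma sum_update {K : ℕ} {Z : Type*} [Fintype Z] [DecidableEq Z] (I : Fin K) (φ : (Fin K → Z) → ℕ) :
    ∑ z : Fin K → Z, ∑ w : Z, φ (Function.update z I w) = Fintype.card Z * ∑ z : Fin K → Z, φ z := by
  classical
  let e : ((Fin K → Z) × Z) ≃ ((Fin K → Z) × Z) :=
    { toFun := fun p => (Function.update p.1 I p.2, p.1 I)
      invFun := fun p => (Function.update p.1 I p.2, p.1 I)
      left_inv := by
        rintro ⟨z, w⟩
        simp
      right_inv := by
        rintro ⟨z, w⟩
        simp }
  calc ∑ z : Fin K → Z, ∑ w : Z, φ (Function.update z I w)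
      = ∑ p : (Fin K → Z) × Z, φ (Function.update p.1 I p.2) := by
        rw [Fintype.sum_prod_type]
    _ = ∑ p : (Fin K → Z) × Z, φ (e p).1 := rfl
    _ = ∑ p : (Fin K → Z) × Z, φ p.1 := Equiv.sum_comp e (fun p => φ p.1)
    _ = ∑ z : Fin K → Z, ∑ _w : Z, φ z := by rw [Fintype.sum_prod_type]
    _ = _ := by
        simp only [sum_const, card_univ, smul_eq_mul]
        rw [mul_sum]

end Pool.Agent.H106R3.SM
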