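import Mathlib

/-!
# One-pass streaming algorithms for submodular matching: the model

The vertices are `Fin n`, an edge is an element of `Sym2 (Fin n)` off the diagonal, a stream is the
list of the edges of a simple graph in the order of arrival.
-/

open MeasureTheory

namespace Pool.Agent.H106R3.SM

/-- a set function which is zero on the empty set, monotone and submodular. -/
def MonoSubmod {E : Type*} [DecidableEq E] (f : Finset E → ℝ) : Prop :=
  f ∅ = 0 ∧ (∀ A B : Finset E, A ⊆ B → f A ≤ f B) ∧
    ∀ A B : Finset E, f (A ∪ B) + f (A ∩ B) ≤ f A + f B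

/-- `es` is the list of the edges of a simple graph, each edge once, in some order. -/
def IsStream {n : ℕ} (es : List (Sym2 (Fin n))) : Prop :=
  es.Nodup ∧ ∀ e ∈ es, ¬ e.IsDiag

/-- the graph with edge list `es` is bipartite. -/
def Bipartite {n : ℕ} (es : List (Sym2 (Fin n))) : Prop :=
  ∃ side : Fin n → Bool, ∀ u v : Fin n, s(u, v) ∈ es → side u ≠ side v

/-- `M` is a matching: no two different members of `M` have a common vertex. -/
def IsMatching {n : ℕ} (M : Finset (Sym2 (Fin n))) : Prop :=
  ∀ e ∈ M, ∀ e' ∈ M, ∀ v : Fin n, v ∈ e → v ∈ e' → e = e'

/-- A deterministic one-pass streaming algorithm with `s` bits of memory for graphs with vertex set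
`Fin n`: when an edge arrives, the content of the memory is updated, in any way that may depend
on the old content, on the edge and on the function `f`; the output may depend on the final
content of the memory and on `f`.

The value of `f` is asked for sets of edges that have already arrived only: on two functions which
agree on all sets of arrived edges the algorithm does the same (`legal`). -/
structure Alg (n s : ℕ) where
  init : Fin s → Bool
  step : (Fin s → Bool) → Sym2 (Fin n) → (Finset (Sym2 (Fin n)) → ℝ) → (Fin s → Bool)
  out : (Fin s → Bool) → (Finset (Sym2 (Fin n)) → ℝ) → Finset (Sym2 (Fin n))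
  legal : ∀ (es : List (Sym2 (Fin n))) (f g : Finset (Sym2 (Fin n)) → ℝ),
    IsStream es → MonoSubmod f → MonoSubmod g → (∀ S ⊆ es.toFinset, f S = g S) →
      es.foldl (fun σ e => step σ e f) init = es.foldl (fun σ e => step σ e g) init ∧
      out (es.foldl (fun σ e => step σ e f) init) f = out (es.foldl (fun σ e => step σ e g) init) g

namespace Alg

variable {n s : ℕ}

/-- the content of the memory after the stream `es`. -/
def run (A : Alg n s) (f : Finset (Sym2 (Fin n)) → ℝ) (es : List (Sym2 (Fin n))) : Fin s → Bool :=
  es.foldl (fun σ e => A.step σ e f) A.init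

/-- the output on the stream `es`. -/
def output (A : Alg n s) (f : Finset (Sym2 (Fin n)) → ℝ) (es : List (Sym2 (Fin n))) :
    Finset (Sym2 (Fin n)) :=
  A.out (A.run f es) f

/-- on the graph with edge list `es` and the function `f`, the output is a matching `M` of the
graph with `f M ≥ (1 / α) * max f`. -/
def Succeeds (A : Alg n s) (α : ℝ) (f : Finset (Sym2 (Fin n)) → ℝ) (es : List (Sym2 (Fin n))) :
    Prop :=
  A.output f es ⊆ es.toFinset ∧ IsMatching (A.output f es) ∧
    ∀ M ⊆ es.toFinset, IsMatching M → f M ≤ α * f (A.output f es)

end Alg

/-- There is a randomised one-pass streaming algorithm with `s` bits of memory (a random choice of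
a deterministic one) which, for every bipartite graph on the vertex set `Fin n`, every order of its
edges and every monotone submodular function, finds an `α`-approximation with probability at
least `2 / 3`. -/
def Approximable (n s : ℕ) (α : ℝ) : Prop :=
  ∃ (Ω : Type) (_ : MeasurableSpace Ω) (μ : Measure Ω) (_ : IsProbabilityMeasure μ)
    (A : Ω → Alg n s),
    ∀ es : List (Sym2 (Fin n)), IsStream es → Bipartite es →
      ∀ f : Finset (Sym2 (Fin n)) → ℝ, MonoSubmod f →
        ∃ T : Set Ω, MeasurableSet T ∧ 2 / 3 ≤ μ T ∧ ∀ ω ∈ T, (A ω).Succeeds α f es

end Pool.Agent.H106R3.SM
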