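import Pool.Agent.H106R3.SM.Main

/-!
# Conclusion
-/

namespace Pool.Agent.H106R3.SM

open Finset MeasureTheory

section Det

variable {K : ℕ} {G : Type} [AddCommGroup G] [Fintype G] [DecidableEq G] {n : ℕ}

/-- A deterministic algorithm with little memory succeeds on less than two thirds of the inputs. -/
lemma det_bound {s : ℕ} (ι : (Fin K × G) ⊕ (Fin K × G × Bool) ↪ Fin n) (hK : 0 < K)
    (A : Alg n s) (α : ℝ) (hα : 0 ≤ α) (h k : ℕ)
    (hpar : α * (Fintype.card G * (((K : ℝ) + 1) / (2 * K)) + K * h) < Fintype.card G)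
    (hk : 3 * K * k ≤ Fintype.card G)
    (hs : 3 * K * 2 ^ (s + Fintype.card G) < 2 ^ (h * k))
    [DecidablePred fun z : Fin K → (G × G → Bool) × G =>
      A.Succeeds α (ff (edg ι) (shf z)) (strm ι z (List.finRange K))] :
    3 * ((univ : Finset (Fin K → (G × G → Bool) × G)).filter (fun z =>
      A.Succeeds α (ff (edg ι) (shf z)) (strm ι z (List.finRange K)))).card <
      2 * Fintype.card (Fin K → (G × G → Bool) × G) := by
  classical
  set m := Fintype.card G with hm
  have hmpos : 0 < m := Fintype.card_pos_iff.2 ⟨0⟩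
  set X := Fintype.card (G × G → Bool) with hX
  have hXpos : 0 < X := Fintype.card_pos
  set N := Fintype.card (Fin K → (G × G → Bool) × G) with hN
  have hNpos : 0 < N := Fintype.card_pos_iff.2 ⟨fun _ => (fun _ => true, 0)⟩
  set Bad : Fin K → Finset (Fin K → (G × G → Bool) × G) := fun I => univ.filter (fun z =>
    A.Succeeds α (ff (edg ι) (shf z)) (strm ι z (List.finRange K)) ∧
        h ≤ (hits ι (A.output (ff (edg ι) (shf z)) (strm ι z (List.finRange K))) I
          (shf z I)).card) with hBad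
  set Sx := (univ : Finset (Fin K → (G × G → Bool) × G)).filter (fun z =>
      A.Succeeds α (ff (edg ι) (shf z)) (strm ι z (List.finRange K))) with hSx
  have hsub : Sx ⊆ univ.biUnion Bad := by
    intro z hz
    rw [hSx, mem_filter] at hz
    obtain ⟨I, hI⟩ := exists_hits ι hK A α hα h hpar z hz.2
    rw [mem_biUnion]
    refine ⟨I, mem_univ _, ?_⟩
    rw [hBad]
    simp only [mem_filter, mem_univ, true_and]
    exact ⟨hz.2, hI⟩
  have hbad : ∀ I, m * (Bad I).card * 2 ^ (h * k) ≤ N * (k * 2 ^ (h * k) + m * (2 ^ s * 2 ^ m)) := by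
    intro I
    have h1 := sum_update (K := K) I (fun z : Fin K → (G × G → Bool) × G => if
      (A.Succeeds α (ff (edg ι) (shf z)) (strm ι z (List.finRange K)) ∧
        h ≤ (hits ι (A.output (ff (edg ι) (shf z)) (strm ι z (List.finRange K))) I
          (shf z I)).card) then 1 else 0)
    have h2 : ∑ z : Fin K → (G × G → Bool) × G, (if
      (A.Succeeds α (ff (edg ι) (shf z)) (strm ι z (List.finRange K)) ∧
        h ≤ (hits ι (A.output (ff (edg ι) (shf z)) (strm ι z (List.finRange K))) I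
          (shf z I)).card) then 1 else 0) = (Bad I).card := by
      rw [hBad, card_filter]
    rw [h2] at h1
    have h3 : Fintype.card ((G × G → Bool) × G) = X * m := by
      rw [Fintype.card_prod]
    rw [h3] at h1
    have h4 : X * m * (Bad I).card * 2 ^ (h * k) ≤
        N * (X * k * 2 ^ (h * k) + m * (2 ^ s * 2 ^ m * X)) := by
      rw [← h1, sum_mul]
      calc _ ≤ ∑ _z0 : Fin K → (G × G → Bool) × G,
            (X * k * 2 ^ (h * k) + m * (2 ^ s * 2 ^ m * X)) :=
            sum_le_sum (fun z0 _ => phase_bound ι A α h k I z0)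
        _ = _ := by rw [sum_const, card_univ, smul_eq_mul]
    have h5 : X * (m * (Bad I).card * 2 ^ (h * k)) ≤
        X * (N * (k * 2 ^ (h * k) + m * (2 ^ s * 2 ^ m))) := by
      calc X * (m * (Bad I).card * 2 ^ (h * k)) = X * m * (Bad I).card * 2 ^ (h * k) := by ring
        _ ≤ _ := h4
        _ = _ := by ring
    exact Nat.le_of_mul_le_mul_left h5 hXpos
  have h6 : m * Sx.card * 2 ^ (h * k) ≤ K * (N * (k * 2 ^ (h * k) + m * (2 ^ s * 2 ^ m))) := by
    calc m * Sx.card * 2 ^ (h * k) ≤ m * (∑ I, (Bad I).card) * 2 ^ (h * k) := by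
          apply Nat.mul_le_mul_right
          apply Nat.mul_le_mul_left
          exact (card_le_card hsub).trans card_biUnion_le
      _ = ∑ I, m * (Bad I).card * 2 ^ (h * k) := by
          rw [mul_sum, sum_mul]
      _ ≤ ∑ _I : Fin K, N * (k * 2 ^ (h * k) + m * (2 ^ s * 2 ^ m)) :=
          sum_le_sum (fun I _ => hbad I)
      _ = _ := by simp
  by_contra hcon
  push Not at hcon
  have h7 : 2 * N * (m * 2 ^ (h * k)) ≤ 3 * Sx.card * (m * 2 ^ (h * k)) :=
    Nat.mul_le_mul_right _ hcon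
  have h8 : 3 * Sx.card * (m * 2 ^ (h * k)) ≤
      3 * (K * (N * (k * 2 ^ (h * k) + m * (2 ^ s * 2 ^ m)))) := by
    calc 3 * Sx.card * (m * 2 ^ (h * k)) = 3 * (m * Sx.card * 2 ^ (h * k)) := by ring
      _ ≤ _ := Nat.mul_le_mul_left _ h6
  have h9 : 3 * (K * (N * (k * 2 ^ (h * k) + m * (2 ^ s * 2 ^ m)))) =
      N * ((3 * K * k) * 2 ^ (h * k) + m * (3 * K * 2 ^ (s + m))) := by
    rw [pow_add]; ring
  have h10 : (3 * K * k) * 2 ^ (h * k) + m * (3 * K * 2 ^ (s + m)) <
      m * 2 ^ (h * k) + m * 2 ^ (h * k) := by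
    have a := Nat.mul_le_mul_right (2 ^ (h * k)) hk
    have b := Nat.mul_lt_mul_of_pos_left hs hmpos
    omega
  have h11 := Nat.mul_lt_mul_of_pos_left h10 hNpos
  have h12 : N * (m * 2 ^ (h * k) + m * 2 ^ (h * k)) = 2 * N * (m * 2 ^ (h * k)) := by ring
  omega

/-- The same for randomised algorithms. -/
lemma rand_bound {s : ℕ} (ι : (Fin K × G) ⊕ (Fin K × G × Bool) ↪ Fin n) (hK : 0 < K)
    (α : ℝ) (hα : 0 ≤ α) (h k : ℕ)
    (hpar : α * (Fintype.card G * (((K : ℝ) + 1) / (2 * K)) + K * h) < Fintype.card G)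
    (hk : 3 * K * k ≤ Fintype.card G)
    (hs : 3 * K * 2 ^ (s + Fintype.card G) < 2 ^ (h * k)) : ¬ Approximable n s α := by
  classical
  rintro ⟨Ω, _, μ, _, A, hA⟩
  have hT : ∀ z : Fin K → (G × G → Bool) × G, ∃ T : Set Ω, MeasurableSet T ∧ 2 / 3 ≤ μ T ∧
      ∀ ω ∈ T, (A ω).Succeeds α (ff (edg ι) (shf z)) (strm ι z (List.finRange K)) :=
    fun z => hA _ (isStream_strm ι z _ (List.nodup_finRange K)) (bipartite_strm ι z _) _ (ff_ms _ _)
  choose T hT1 hT2 hT3 using hT
  set N := Fintype.card (Fin K → (G × G → Bool) × G) with hN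
  set g : Ω → ENNReal := fun ω => ∑ z, (T z).indicator (fun _ => (1 : ENNReal)) ω with hg
  have hint : ∫⁻ ω, g ω ∂μ = ∑ z, μ (T z) := by
    rw [hg, lintegral_finsetSum _ (fun z _ => measurable_const.indicator (hT1 z))]
    refine sum_congr rfl (fun z _ => ?_)
    rw [lintegral_indicator (hT1 z)]
    simp
  have hfin : ∫⁻ ω, g ω ∂μ ≠ ⊤ := by
    rw [hint]
    exact ENNReal.sum_ne_top.2 (fun z _ => measure_ne_top μ _)
  obtain ⟨ω, hω⟩ := exists_lintegral_le (μ := μ) hfin
  have hlow : (N : ENNReal) * (2 / 3) ≤ ∫⁻ ω, g ω ∂μ := by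
    rw [hint]
    calc (N : ENNReal) * (2 / 3) = ∑ _z : Fin K → (G × G → Bool) × G, (2 / 3 : ENNReal) := by
          rw [sum_const, card_univ, nsmul_eq_mul]
      _ ≤ _ := sum_le_sum (fun z _ => hT2 z)
  have hup : g ω ≤ (((univ : Finset (Fin K → (G × G → Bool) × G)).filter (fun z =>
      (A ω).Succeeds α (ff (edg ι) (shf z)) (strm ι z (List.finRange K)))).card : ENNReal) := by
    rw [hg, card_filter, Nat.cast_sum]
    refine sum_le_sum (fun z _ => ?_)
    by_cases hz : ω ∈ T z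
    · have := hT3 z ω hz
      simp [this, Set.indicator_of_mem hz]
    · simp [Set.indicator_of_notMem hz]
  have hdet := det_bound ι hK (A ω) α hα h k hpar hk hs
  set c := ((univ : Finset (Fin K → (G × G → Bool) × G)).filter (fun z =>
      (A ω).Succeeds α (ff (edg ι) (shf z)) (strm ι z (List.finRange K)))).card with hc
  have h1 : (N : ENNReal) * (2 / 3) ≤ (c : ENNReal) := hlow.trans (hω.trans hup)
  have h2 : (N : ℝ) * (2 / 3) ≤ c := by
    have := ENNReal.toReal_mono (ENNReal.natCast_ne_top c) h1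
    rw [ENNReal.toReal_mul, ENNReal.toReal_natCast, ENNReal.toReal_natCast,
      ENNReal.toReal_div] at this
    simpa using this
  have h3 : (3 : ℝ) * c < 2 * N := by exact_mod_cast hdet
  linarith

end Det

lemma approximable_mono {n s : ℕ} {α α' : ℝ} (h : α ≤ α') (hA : Approximable n s α) :
    Approximable n s α' := by
  obtain ⟨Ω, i1, μ, i2, A, hA⟩ := hA
  refine ⟨Ω, i1, μ, i2, A, ?_⟩
  intro es h1 h2 f hf
  obtain ⟨T, hT1, hT2, hT3⟩ := hA es h1 h2 f hf
  refine ⟨T, hT1, hT2, ?_⟩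
  intro ω hω
  obtain ⟨a, b, c⟩ := hT3 ω hω
  refine ⟨a, b, ?_⟩
  intro M hM1 hM2
  refine (c M hM1 hM2).trans (mul_le_mul_of_nonneg_right h ?_)
  rw [← hf.1]
  exact hf.2.1 _ _ (Finset.empty_subset _)

theorem main (α : ℝ) (hα : α < 2) : ∃ δ : ℝ, 0 < δ ∧ ∃ N : ℕ, ∀ n ≥ N, ∀ s : ℕ,
    (s : ℝ) ≤ δ * (n : ℝ) ^ 2 → ¬ Approximable n s α := by
  -- reduce to `1 ≤ α`
  wlog h1 : 1 ≤ α with H
  · obtain ⟨δ, hδ, N, hN⟩ := H 1 (by norm_num) le_rfl
    exact ⟨δ, hδ, N, fun n hn s hs hA => hN n hn s hs (approximable_mono (not_le.1 h1).le hA)⟩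
  have h2 : 0 < 2 - α := by linarith
  obtain ⟨K, hK⟩ := exists_nat_gt (α / (2 - α))
  have hKpos' : (0 : ℝ) < K := lt_trans (by positivity) hK
  have hKpos : 0 < K := by exact_mod_cast hKpos'
  have hK1 : (1 : ℝ) ≤ K := by exact_mod_cast hKpos
  rw [div_lt_iff₀ h2] at hK
  have h3 : α * (((K : ℝ) + 1) / (2 * K)) < 1 := by
    rw [mul_div_assoc', div_lt_one (by positivity)]
    nlinarith
  set ε : ℝ := 1 - α * (((K : ℝ) + 1) / (2 * K)) with hε
  have hεpos : 0 < ε := by linarith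
  set γ : ℝ := ε / (2 * K * α) with hγ
  have hγpos : 0 < γ := by positivity
  have hγ2 : α * (K * γ) = ε / 2 := by
    rw [hγ]; field_simp
  set M0 : ℝ := 2 / γ + 6 * K + 48 * K / γ + 144 * K ^ 2 / γ + 1 with hM0
  have hM0pos : 0 < M0 := by positivity
  refine ⟨γ / (864 * K ^ 3), by positivity, ⌈6 * K * M0⌉₊, ?_⟩
  intro n hn s hs
  have hn' : 6 * K * M0 ≤ n := Nat.ceil_le.1 hn
  set m : ℕ := n / (3 * K) with hm
  have hm1 : 3 * K * m ≤ n := Nat.mul_div_le n (3 * K)
  have hm2 : (n : ℝ) < 3 * K * (m + 1) := by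
    have := Nat.lt_mul_div_succ n (show 0 < 3 * K by omega)
    exact_mod_cast this
  have hmM : M0 ≤ m := by
    have h6 : (n : ℝ) / (6 * K) ≤ m := by
      rw [div_le_iff₀ (by positivity)]
      have h7 : (6 : ℝ) * K ≤ n := by
        have : (1 : ℝ) ≤ M0 := by
          rw [hM0]
          have : 0 ≤ 2 / γ + 6 * K + 48 * K / γ + 144 * K ^ 2 / γ := by positivity
          linarith
        nlinarith
      nlinarith
    have h8 : M0 ≤ (n : ℝ) / (6 * K) := by
      rw [le_div_iff₀ (by positivity)]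
      linarith
    linarith
  have hmpos : 0 < m := by
    have : (0 : ℝ) < m := lt_of_lt_of_le hM0pos hmM
    exact_mod_cast this
  have hmposR : (0 : ℝ) < m := by exact_mod_cast hmpos
  have hn6 : (n : ℝ) ≤ 6 * K * m := by
    have : (1 : ℝ) ≤ m := by exact_mod_cast hmpos
    nlinarith
  have c1 : 2 / γ ≤ m := by
    have : 0 ≤ 6 * K + 48 * K / γ + 144 * K ^ 2 / γ + 1 := by positivity
    linarith
  have c2 : 6 * K ≤ (m : ℝ) := by
    have : 0 ≤ 2 / γ + 48 * K / γ + 144 * K ^ 2 / γ + 1 := by positivity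
    linarith
  have c3 : 48 * K / γ ≤ m := by
    have : 0 ≤ 2 / γ + 6 * K + 144 * K ^ 2 / γ + 1 := by positivity
    linarith
  have c4 : 144 * K ^ 2 / γ ≤ m := by
    have : 0 ≤ 2 / γ + 6 * K + 48 * K / γ + 1 := by positivity
    linarith
  rw [div_le_iff₀ hγpos] at c1 c3 c4
  have : NeZero m := ⟨hmpos.ne'⟩
  have hcardG : Fintype.card (ZMod m) = m := ZMod.card m
  -- the embedding
  have hemb : Fintype.card ((Fin K × ZMod m) ⊕ (Fin K × ZMod m × Bool)) ≤ Fintype.card (Fin n) := by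
    simp only [Fintype.card_sum, Fintype.card_prod, Fintype.card_fin, ZMod.card, Fintype.card_bool]
    calc K * m + K * (m * 2) = 3 * K * m := by ring
      _ ≤ n := hm1
  obtain ⟨ι⟩ := Function.Embedding.nonempty_of_card_le hemb
  set h : ℕ := ⌊γ * m⌋₊ with hh
  set k : ℕ := m / (3 * K) with hk
  have hh1 : (h : ℝ) ≤ γ * m := Nat.floor_le (by positivity)
  have hh2 : γ * m < h + 1 := Nat.lt_floor_add_one _
  have hk1 : 3 * K * k ≤ m := Nat.mul_div_le m (3 * K)
  have hk2 : (m : ℝ) < 3 * K * (k + 1) := by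
    have := Nat.lt_mul_div_succ m (show 0 < 3 * K by omega)
    exact_mod_cast this
  have hh3 : γ * m / 2 ≤ h := by nlinarith
  have hk3 : (m : ℝ) / (6 * K) ≤ k := by
    rw [div_le_iff₀ (by positivity)]
    nlinarith
  have hhk : γ * m ^ 2 / (12 * K) ≤ (h * k : ℕ) := by
    push_cast
    calc γ * m ^ 2 / (12 * K) = (γ * m / 2) * (m / (6 * K)) := by field_simp; ring
      _ ≤ h * k := mul_le_mul hh3 hk3 (by positivity) (by positivity)
  have hs1 : (s : ℝ) ≤ γ * m ^ 2 / (24 * K) := by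
    calc (s : ℝ) ≤ γ / (864 * K ^ 3) * (n : ℝ) ^ 2 := hs
      _ ≤ γ / (864 * K ^ 3) * (6 * K * m) ^ 2 := by
          apply mul_le_mul_of_nonneg_left _ (by positivity)
          exact pow_le_pow_left₀ (by positivity) hn6 2
      _ = γ * m ^ 2 / (24 * K) := by field_simp; ring
  have hm3 : (m : ℝ) ≤ γ * m ^ 2 / (48 * K) := by
    rw [le_div_iff₀ (by positivity)]
    calc (m : ℝ) * (48 * K) ≤ m * (m * γ) := mul_le_mul_of_nonneg_left c3 hmposR.le
      _ = γ * m ^ 2 := by ring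
  have hK3 : (3 : ℝ) * K ≤ γ * m ^ 2 / (48 * K) := by
    rw [le_div_iff₀ (by positivity)]
    have h1m : (1 : ℝ) ≤ m := by exact_mod_cast hmpos
    calc (3 : ℝ) * K * (48 * K) = 144 * K ^ 2 := by ring
      _ ≤ m * γ := c4
      _ ≤ (m * γ) * m := le_mul_of_one_le_right (by positivity) h1m
      _ = γ * m ^ 2 := by ring
  have hexp : 3 * K + (s + m) ≤ h * k := by
    have : ((3 * K + (s + m) : ℕ) : ℝ) ≤ ((h * k : ℕ) : ℝ) := by
      push_cast
      have e : γ * m ^ 2 / (48 * K) + γ * m ^ 2 / (48 * K) + γ * m ^ 2 / (24 * K) =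
          γ * m ^ 2 / (12 * K) := by field_simp; ring
      push_cast at hhk
      linarith
    exact_mod_cast this
  apply rand_bound ι hKpos α (by linarith) h k
  · rw [hcardG]
    have e1 : α * (m * (((K : ℝ) + 1) / (2 * K)) + K * h) ≤
        m * (α * (((K : ℝ) + 1) / (2 * K)) + α * (K * γ)) := by
      have : α * (K * h) ≤ α * (K * (γ * m)) := by
        apply mul_le_mul_of_nonneg_left _ (by linarith)
        exact mul_le_mul_of_nonneg_left hh1 hKpos'.le
      linarith
    have e2 : α * (((K : ℝ) + 1) / (2 * K)) + α * (K * γ) < 1 := by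
      rw [hγ2]
      linarith
    calc _ ≤ _ := e1
      _ < m * 1 := mul_lt_mul_of_pos_left e2 hmposR
      _ = m := mul_one _
  · rw [hcardG]; exact hk1
  · rw [hcardG]
    calc 3 * K * 2 ^ (s + m) < 2 ^ (3 * K) * 2 ^ (s + m) :=
          Nat.mul_lt_mul_of_pos_right Nat.lt_two_pow_self (by positivity)
      _ = 2 ^ (3 * K + (s + m)) := by rw [← pow_add]
      _ ≤ 2 ^ (h * k) := Nat.pow_le_pow_right (by norm_num) hexp

end Pool.Agent.H106R3.SM
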