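import Pool.Agent.H106R3.SM.Defs

/-!
# The hard functions
-/

namespace Pool.Agent.H106R3.SM

open Finset

section General

variable {Y : Type*} [DecidableEq Y]

lemma prod01 (w : Y → ℝ) (h0 : ∀ y, 0 ≤ w y) (h1 : ∀ y, w y ≤ 1) (A : Finset Y) :
    0 ≤ ∏ y ∈ A, w y ∧ ∏ y ∈ A, w y ≤ 1 :=
  ⟨prod_nonneg (fun y _ => h0 y), prod_le_one (fun y _ => h0 y) (fun y _ => h1 y)⟩

lemma prod_anti (w : Y → ℝ) (h0 : ∀ y, 0 ≤ w y) (h1 : ∀ y, w y ≤ 1) {A B : Finset Y} (h : A ⊆ B) :
    ∏ y ∈ B, w y ≤ ∏ y ∈ A, w y := by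
  rw [← prod_sdiff h]
  have := prod01 w h0 h1 (B \ A)
  have := prod01 w h0 h1 A
  nlinarith

lemma prod_submod (w : Y → ℝ) (h0 : ∀ y, 0 ≤ w y) (h1 : ∀ y, w y ≤ 1) (A B : Finset Y) :
    ∏ y ∈ A, w y + ∏ y ∈ B, w y ≤ ∏ y ∈ A ∪ B, w y + ∏ y ∈ A ∩ B, w y := by
  have hA : ∏ y ∈ A, w y = (∏ y ∈ A \ B, w y) * ∏ y ∈ A ∩ B, w y := by
    rw [← prod_sdiff (inter_subset_left : A ∩ B ⊆ A), sdiff_inter_self_left]
  have hB : ∏ y ∈ B, w y = (∏ y ∈ B \ A, w y) * ∏ y ∈ A ∩ B, w y := by
    rw [← prod_sdiff (inter_subset_right : A ∩ B ⊆ B), sdiff_inter_self_right]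
  have hAB : ∏ y ∈ A ∪ B, w y = (∏ y ∈ A \ B, w y) * ∏ y ∈ B, w y := by
    rw [← prod_sdiff (subset_union_right : B ⊆ A ∪ B), union_sdiff_right]
  have a := prod01 w h0 h1 (A \ B)
  have b := prod01 w h0 h1 (B \ A)
  have c := prod01 w h0 h1 (A ∩ B)
  rw [hAB, hA, hB]
  have : 0 ≤ (∏ y ∈ A ∩ B, w y) * ((1 - ∏ y ∈ A \ B, w y) * (1 - ∏ y ∈ B \ A, w y)) :=
    mul_nonneg c.1 (mul_nonneg (by linarith) (by linarith))
  nlinarith

end General

variable {K : ℕ} {G : Type*} [AddCommGroup G] [Fintype G] [DecidableEq G]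
variable {E : Type*} [DecidableEq E]

/-- the indices of the members of a set of edges. -/
noncomputable def idx (ed : Fin K × G × G → Bool → E) (S : Finset E) : Finset (Fin K × G × G) := by
  classical
  exact univ.filter (fun y => ∃ β, ed y β ∈ S)

lemma mem_idx (ed : Fin K × G × G → Bool → E) (S : Finset E) (y : Fin K × G × G) :
    y ∈ idx ed S ↔ ∃ β, ed y β ∈ S := by
  classical
  simp [idx]

/-- the part of a zone left uncovered by an ordinary element. -/
noncomputable def rr (K : ℕ) (i : Fin K) : ℝ := ((K : ℝ) - (i : ℕ) - 1) / ((K : ℝ) - (i : ℕ))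

lemma rr_nonneg (i : Fin K) : 0 ≤ rr K i := by
  have : ((i : ℕ) : ℝ) + 1 ≤ K := by exact_mod_cast i.2
  exact div_nonneg (by linarith) (by linarith)

lemma rr_le_one (i : Fin K) : rr K i ≤ 1 := by
  have : ((i : ℕ) : ℝ) + 1 ≤ K := by exact_mod_cast i.2
  unfold rr
  rw [div_le_one (by linarith)]
  linarith

/-- weights: the part of zone `z0` of copy `j0` left uncovered by the element `y`. -/
noncomputable def ww (l : Fin K → G) (j0 : G) (z0 : Fin K) (y : Fin K × G × G) : ℝ :=
  if y.2.1 = j0 then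
    (if y.2.2 = l y.1 + j0 then (if y.1 = z0 then 0 else 1) else (if y.1 ≤ z0 then rr K y.1 else 1))
  else 1

lemma ww_nonneg (l : Fin K → G) (j0 : G) (z0 : Fin K) (y : Fin K × G × G) : 0 ≤ ww l j0 z0 y := by
  unfold ww
  have := rr_nonneg y.1
  split_ifs <;> first | assumption | norm_num

lemma ww_le_one (l : Fin K → G) (j0 : G) (z0 : Fin K) (y : Fin K × G × G) : ww l j0 z0 y ≤ 1 := by
  unfold ww
  have := rr_le_one y.1
  split_ifs <;> first | assumption | norm_num

/-- the hard function with shifts `l`. -/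
noncomputable def ff (ed : Fin K × G × G → Bool → E) (l : Fin K → G) (S : Finset E) : ℝ :=
  ∑ j0 : G, ∑ z0 : Fin K, (1 / (K : ℝ)) * (1 - ∏ y ∈ idx ed S, ww l j0 z0 y)

lemma ff_ms (ed : Fin K × G × G → Bool → E) (l : Fin K → G) : MonoSubmod (ff ed l) := by
  classical
  refine ⟨?_, ?_, ?_⟩
  · have : idx ed (∅ : Finset E) = ∅ := by
      ext y; simp [mem_idx]
    simp [ff, this]
  · intro A B hAB
    unfold ff
    refine sum_le_sum (fun j0 _ => sum_le_sum (fun z0 _ => ?_))
    have hs : idx ed A ⊆ idx ed B := by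
      intro y hy
      rw [mem_idx] at hy ⊢
      obtain ⟨β, hβ⟩ := hy
      exact ⟨β, hAB hβ⟩
    have := prod_anti (ww l j0 z0) (ww_nonneg l j0 z0) (ww_le_one l j0 z0) hs
    apply mul_le_mul_of_nonneg_left (by linarith) (by positivity)
  · intro A B
    unfold ff
    rw [← sum_add_distrib, ← sum_add_distrib]
    refine sum_le_sum (fun j0 _ => ?_)
    rw [← sum_add_distrib, ← sum_add_distrib]
    refine sum_le_sum (fun z0 _ => ?_)
    have hu : idx ed (A ∪ B) = idx ed A ∪ idx ed B := by
      ext y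
      simp only [mem_idx, mem_union]
      constructor
      · rintro ⟨β, h | h⟩
        · exact Or.inl ⟨β, h⟩
        · exact Or.inr ⟨β, h⟩
      · rintro (⟨β, h⟩ | ⟨β, h⟩)
        · exact ⟨β, Or.inl h⟩
        · exact ⟨β, Or.inr h⟩
    have hi : idx ed (A ∩ B) ⊆ idx ed A ∩ idx ed B := by
      intro y hy
      rw [mem_idx] at hy
      obtain ⟨β, hβ⟩ := hy
      rw [mem_inter] at hβ
      rw [mem_inter, mem_idx, mem_idx]
      exact ⟨⟨β, hβ.1⟩, ⟨β, hβ.2⟩⟩
    have h1 := prod_submod (ww l j0 z0) (ww_nonneg l j0 z0) (ww_le_one l j0 z0) (idx ed A) (idx ed B)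
    have h2 := prod_anti (ww l j0 z0) (ww_nonneg l j0 z0) (ww_le_one l j0 z0) hi
    rw [hu, ← mul_add, ← mul_add]
    apply mul_le_mul_of_nonneg_left (by linarith) (by positivity)

/-- The function on the sets of edges of the phases up to `I` does not depend on the shifts of the
phases from `I` on. -/
lemma ff_local (ed : Fin K × G × G → Bool → E) (I : Fin K) (l l' : Fin K → G)
    (hl : ∀ i < I, l i = l' i) (S : Finset E) (hS : ∀ y ∈ idx ed S, y.1 ≤ I) :
    ff ed l S = ff ed l' S := by
  classical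
  have hKpos : (0 : ℝ) < K := by
    have : 0 < K := lt_of_le_of_lt (Nat.zero_le _) I.2
    exact_mod_cast this
  unfold ff
  refine sum_congr rfl (fun j0 _ => ?_)
  rw [← mul_sum, ← mul_sum]
  congr 1
  rw [sum_sub_distrib, sum_sub_distrib]
  congr 1
  -- the elements of phases before `I`, and those of phase `I`
  set P := idx ed S with hP
  set B : Finset (Fin K × G × G) := P.filter (fun y => y.1 = I ∧ y.2.1 = j0) with hB
  -- formula for one choice of shifts
  have key : ∀ m : Fin K → G, ∑ z0 : Fin K, ∏ y ∈ P, ww m j0 z0 y =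
      ∑ z0 ∈ univ.filter (fun z : Fin K => z < I), ∏ y ∈ P, ww m j0 z0 y +
      (∏ y ∈ P.filter (fun y => y.1 < I), ww m j0 I y) * (((K : ℝ) - (I : ℕ)) * rr K I ^ B.card) := by
    intro m
    rw [← sum_filter_add_sum_filter_not univ (fun z : Fin K => z < I)]
    congr 1
    have hsplit : ∀ z0 ∈ univ.filter (fun z : Fin K => ¬ z < I), ∏ y ∈ P, ww m j0 z0 y =
        (∏ y ∈ P.filter (fun y => y.1 < I), ww m j0 I y) * ∏ y ∈ B, ww m j0 z0 y := by
      intro z0 hz0
      rw [mem_filter] at hz0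
      have hz : I ≤ z0 := not_lt.1 hz0.2
      rw [← prod_filter_mul_prod_filter_not P (fun y => y.1 < I)]
      congr 1
      · refine prod_congr rfl (fun y hy => ?_)
        have hyI : y.1 < I := (mem_filter.1 hy).2
        unfold ww
        have e1 : y.1 ≠ z0 := (hyI.trans_le hz).ne
        have e2 : y.1 ≠ I := hyI.ne
        have e3 : y.1 ≤ z0 := (hyI.trans_le hz).le
        have e4 : y.1 ≤ I := hyI.le
        simp [e1, e2, e3, e4]
      · have hBs : B ⊆ P.filter (fun y => ¬ y.1 < I) := by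
          intro y hy
          rw [hB, mem_filter] at hy
          rw [mem_filter]
          exact ⟨hy.1, by rw [hy.2.1]; exact lt_irrefl _⟩
        symm
        apply prod_subset hBs
        intro y hy hyB
        rw [mem_filter] at hy
        have hyI : y.1 = I := le_antisymm (hS y hy.1) (not_lt.1 hy.2)
        have : y.2.1 ≠ j0 := by
          intro h
          exact hyB (by rw [hB, mem_filter]; exact ⟨hy.1, hyI, h⟩)
        simp [ww, this]
    rw [sum_congr rfl hsplit, ← mul_sum]
    congr 1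
    -- the sum over `z0 ≥ I`
    have hBform : ∀ y ∈ B, y.1 = I ∧ y.2.1 = j0 := by
      intro y hy
      rw [hB, mem_filter] at hy
      exact hy.2
    set sp : Fin K × G × G := (I, j0, m I + j0) with hsp
    have hord : ∀ z0, I ≤ z0 → ∀ y ∈ B, y ≠ sp → ww m j0 z0 y = rr K I := by
      intro z0 hz y hy hne
      obtain ⟨h1, h2⟩ := hBform y hy
      have h3 : y.2.2 ≠ m I + j0 := by
        intro h
        apply hne
        rw [hsp]
        ext
        · simp [h1]
        · exact h2
        · exact h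
      unfold ww
      rw [h1, if_pos h2, if_neg h3, if_pos hz]
    have hcard : ((univ.filter (fun z : Fin K => ¬ z < I)).card : ℝ) = (K : ℝ) - (I : ℕ) := by
      have : univ.filter (fun z : Fin K => ¬ z < I) = Finset.Ici I := by
        ext z; simp
      rw [this, Fin.card_Ici]
      rw [Nat.cast_sub I.2.le]
    have hcard2 : ((univ.filter (fun z : Fin K => I < z)).card : ℝ) = (K : ℝ) - (I : ℕ) - 1 := by
      have : univ.filter (fun z : Fin K => I < z) = Finset.Ioi I := by
        ext z; simp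
      rw [this, Fin.card_Ioi]
      have h2 := I.2
      have : K - 1 - (I : ℕ) = K - ((I : ℕ) + 1) := by omega
      rw [this, Nat.cast_sub (by omega)]
      push_cast
      ring
    by_cases hspB : sp ∈ B
    · have h1 : ∀ z0 ∈ univ.filter (fun z : Fin K => ¬ z < I), ∏ y ∈ B, ww m j0 z0 y =
          (if I < z0 then rr K I ^ (B.card - 1) else 0) := by
        intro z0 hz0
        rw [mem_filter] at hz0
        have hz : I ≤ z0 := not_lt.1 hz0.2
        rw [← mul_prod_erase B _ hspB]
        have e1 : ∏ y ∈ B.erase sp, ww m j0 z0 y = rr K I ^ (B.card - 1) := by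
          rw [prod_congr rfl (fun y hy => hord z0 hz y (mem_of_mem_erase hy) (ne_of_mem_erase hy)),
            prod_const, card_erase_of_mem hspB]
        rw [e1]
        by_cases hlt : I < z0
        · have : ww m j0 z0 sp = 1 := by
            simp [ww, hsp, hlt.ne]
          rw [this, one_mul, if_pos hlt]
        · have hIz : I = z0 := le_antisymm hz (not_lt.1 hlt)
          have : ww m j0 z0 sp = 0 := by
            simp [ww, hsp, hIz]
          rw [this, zero_mul, if_neg hlt]
      rw [sum_congr rfl h1, ← sum_filter, filter_filter]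
      have h2 : (univ.filter (fun z : Fin K => ¬ z < I ∧ I < z)) =
          univ.filter (fun z : Fin K => I < z) := by
        ext z
        simp only [mem_filter, mem_univ, true_and]
        exact ⟨fun h => h.2, fun h => ⟨not_lt.2 h.le, h⟩⟩
      rw [h2, sum_const, nsmul_eq_mul, hcard2]
      have hc : B.card = (B.card - 1) + 1 := by
        have : 0 < B.card := card_pos.2 ⟨sp, hspB⟩
        omega
      have hne : (K : ℝ) - (I : ℕ) ≠ 0 := by
        have : ((I : ℕ) : ℝ) + 1 ≤ K := by exact_mod_cast I.2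
        linarith
      conv_rhs => rw [hc, pow_succ]
      unfold rr
      field_simp
    · have h1 : ∀ z0 ∈ univ.filter (fun z : Fin K => ¬ z < I), ∏ y ∈ B, ww m j0 z0 y =
          rr K I ^ B.card := by
        intro z0 hz0
        rw [mem_filter] at hz0
        have hz : I ≤ z0 := not_lt.1 hz0.2
        rw [prod_congr rfl (fun y hy => hord z0 hz y hy (fun h => hspB (h ▸ hy))), prod_const]
      rw [sum_congr rfl h1, sum_const, nsmul_eq_mul, hcard]
  rw [key l, key l']
  congr 1
  · refine sum_congr rfl (fun z0 hz0 => prod_congr rfl (fun y hy => ?_))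
    have hz : z0 < I := (mem_filter.1 hz0).2
    unfold ww
    rcases lt_or_eq_of_le (hS y hy) with h | h
    · rw [hl y.1 h]
    · have e1 : y.1 ≠ z0 := by rw [h]; exact hz.ne'
      have e2 : ¬ y.1 ≤ z0 := by rw [h]; exact not_le.2 hz
      simp [e1, e2]
  · congr 1
    refine prod_congr rfl (fun y hy => ?_)
    have h : y.1 < I := (mem_filter.1 hy).2
    unfold ww
    rw [hl y.1 h]

end Pool.Agent.H106R3.SM
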