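import Pool.Agent.H106R3.SM.Val
import Pool.Agent.H106R3.SM.Count

/-!
# The lower bound
-/

namespace Pool.Agent.H106R3.SM

open Finset MeasureTheory

variable {K : ℕ} {G : Type} [AddCommGroup G] [Fintype G] [DecidableEq G] {n : ℕ}

/-- the edges of the hard graphs. -/
def edg (ι : (Fin K × G) ⊕ (Fin K × G × Bool) ↪ Fin n) (y : Fin K × G × G) (β : Bool) :
    Sym2 (Fin n) :=
  s(ι (Sum.inl (y.1, y.2.1)), ι (Sum.inr (y.1, y.2.2, β)))

lemma edg_inj (ι : (Fin K × G) ⊕ (Fin K × G × Bool) ↪ Fin n) {y y' : Fin K × G × G} {β β' : Bool}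
    (h : edg ι y β = edg ι y' β') : y = y' ∧ β = β' := by
  unfold edg at h
  rw [Sym2.eq_iff] at h
  rcases h with ⟨h1, h2⟩ | ⟨h1, _⟩
  · have h1 := ι.injective h1
    have h2 := ι.injective h2
    simp only [Sum.inl.injEq, Sum.inr.injEq, Prod.mk.injEq] at h1 h2
    refine ⟨?_, h2.2.2⟩
    ext
    · rw [h1.1]
    · exact h1.2
    · exact h2.2.1
  · have := ι.injective h1
    simp at this

lemma edg_not_diag (ι : (Fin K × G) ⊕ (Fin K × G × Bool) ↪ Fin n) (y : Fin K × G × G) (β : Bool) :
    ¬ (edg ι y β).IsDiag := by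
  unfold edg
  rw [Sym2.mk_isDiag_iff]
  intro h
  have := ι.injective h
  simp at this

lemma mem_edg (ι : (Fin K × G) ⊕ (Fin K × G × Bool) ↪ Fin n) (y : Fin K × G × G) (β : Bool)
    (v : Fin n) (h : v ∈ edg ι y β) :
    v = ι (Sum.inl (y.1, y.2.1)) ∨ v = ι (Sum.inr (y.1, y.2.2, β)) := by
  unfold edg at h
  exact Sym2.mem_iff.1 h

/-- the edges of one phase. -/
noncomputable def blk (ι : (Fin K × G) ⊕ (Fin K × G × Bool) ↪ Fin n) (x : G × G → Bool)
    (i : Fin K) : List (Sym2 (Fin n)) :=
  (univ : Finset (G × G)).toList.map (fun p => edg ι (i, p.1, p.2) (x p))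

/-- the edges of the phases in the list `L`. -/
noncomputable def strm (ι : (Fin K × G) ⊕ (Fin K × G × Bool) ↪ Fin n)
    (z : Fin K → (G × G → Bool) × G) (L : List (Fin K)) : List (Sym2 (Fin n)) :=
  L.flatMap (fun i => blk ι (z i).1 i)

lemma mem_blk (ι : (Fin K × G) ⊕ (Fin K × G × Bool) ↪ Fin n) (x : G × G → Bool)
    (i : Fin K) (e : Sym2 (Fin n)) : e ∈ blk ι x i ↔ ∃ j b, e = edg ι (i, j, b) (x (j, b)) := by
  unfold blk
  rw [List.mem_map]
  constructor
  · rintro ⟨⟨j, b⟩, _, rfl⟩
    exact ⟨j, b, rfl⟩
  · rintro ⟨j, b, rfl⟩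
    exact ⟨(j, b), by simp, rfl⟩

lemma mem_strm (ι : (Fin K × G) ⊕ (Fin K × G × Bool) ↪ Fin n)
    (z : Fin K → (G × G → Bool) × G) (L : List (Fin K)) (e : Sym2 (Fin n)) :
    e ∈ strm ι z L ↔ ∃ i ∈ L, ∃ j b, e = edg ι (i, j, b) ((z i).1 (j, b)) := by
  unfold strm
  rw [List.mem_flatMap]
  simp only [mem_blk]

lemma isStream_strm (ι : (Fin K × G) ⊕ (Fin K × G × Bool) ↪ Fin n)
    (z : Fin K → (G × G → Bool) × G) (L : List (Fin K)) (hL : L.Nodup) : IsStream (strm ι z L) := by
  refine ⟨?_, ?_⟩
  · unfold strm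
    rw [List.nodup_flatMap]
    refine ⟨?_, ?_⟩
    · intro i _
      unfold blk
      apply List.Nodup.map_on
      · rintro ⟨j, b⟩ _ ⟨j', b'⟩ _ h
        have := (edg_inj ι h).1
        simpa using this
      · exact Finset.nodup_toList _
    · refine hL.imp ?_
      intro i i' hne e he he'
      rw [mem_blk] at he he'
      obtain ⟨j, b, rfl⟩ := he
      obtain ⟨j', b', h⟩ := he'
      have := (edg_inj ι h).1
      simp only [Prod.mk.injEq] at this
      exact hne this.1
  · intro e he
    rw [mem_strm] at he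
    obtain ⟨i, _, j, b, rfl⟩ := he
    exact edg_not_diag ι _ _

lemma bipartite_strm (ι : (Fin K × G) ⊕ (Fin K × G × Bool) ↪ Fin n)
    (z : Fin K → (G × G → Bool) × G) (L : List (Fin K)) : Bipartite (strm ι z L) := by
  classical
  refine ⟨fun v => decide (∃ c, v = ι (Sum.inl c)), ?_⟩
  intro u v h
  rw [mem_strm] at h
  obtain ⟨i, _, j, b, h⟩ := h
  unfold edg at h
  have hc : ∀ c c', ¬ (ι (Sum.inr c) = ι (Sum.inl c')) := by
    intro c c' h
    have := ι.injective h
    simp at this
  rw [Sym2.eq_iff] at h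
  rcases h with ⟨h1, h2⟩ | ⟨h1, h2⟩
  · rw [h1, h2]
    have e1 : (∃ c, ι (Sum.inl (i, j)) = ι (Sum.inl c)) := ⟨_, rfl⟩
    have e2 : ¬ (∃ c, ι (Sum.inr (i, b, (z i).1 (j, b))) = ι (Sum.inl c)) :=
      fun ⟨c, h⟩ => hc _ _ h
    simp only [e1, e2, decide_true, decide_false, ne_eq, Bool.true_eq_false, not_false_eq_true]
  · rw [h1, h2]
    have e1 : (∃ c, ι (Sum.inl (i, j)) = ι (Sum.inl c)) := ⟨_, rfl⟩
    have e2 : ¬ (∃ c, ι (Sum.inr (i, b, (z i).1 (j, b))) = ι (Sum.inl c)) :=
      fun ⟨c, h⟩ => hc _ _ h
    simp only [e1, e2, decide_true, decide_false, ne_eq, Bool.false_eq_true, not_false_eq_true]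

/-- the shifts of an input. -/
def shf (z : Fin K → (G × G → Bool) × G) : Fin K → G := fun i => (z i).2

/-- the copies whose special element of phase `I` is in the set `O`. -/
noncomputable def hits (ι : (Fin K × G) ⊕ (Fin K × G × Bool) ↪ Fin n) (O : Finset (Sym2 (Fin n)))
    (I : Fin K) (l : G) : Finset G := by
  classical
  exact univ.filter (fun j => (I, j, l + j) ∈ idx (edg ι) O)

lemma mem_hits (ι : (Fin K × G) ⊕ (Fin K × G × Bool) ↪ Fin n) (O : Finset (Sym2 (Fin n)))
    (I : Fin K) (l : G) (j : G) : j ∈ hits ι O I l ↔ (I, j, l + j) ∈ idx (edg ι) O := by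
  classical
  simp [hits]

/-- A successful output contains many special elements of some phase. -/
lemma exists_hits {s : ℕ} (ι : (Fin K × G) ⊕ (Fin K × G × Bool) ↪ Fin n) (hK : 0 < K)
    (A : Alg n s) (α : ℝ) (hα : 0 ≤ α) (h : ℕ)
    (hpar : α * (Fintype.card G * (((K : ℝ) + 1) / (2 * K)) + K * h) < Fintype.card G)
    (z : Fin K → (G × G → Bool) × G)
    (hs : A.Succeeds α (ff (edg ι) (shf z)) (strm ι z (List.finRange K))) :
    ∃ I : Fin K, h ≤ (hits ι (A.output (ff (edg ι) (shf z)) (strm ι z (List.finRange K))) I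
      (shf z I)).card := by
  classical
  by_contra hcon
  push Not at hcon
  obtain ⟨h1, h2, h3⟩ := hs
  set O := A.output (ff (edg ι) (shf z)) (strm ι z (List.finRange K)) with hO
  -- the optimal matching
  set M : Finset (Sym2 (Fin n)) := univ.image (fun p : Fin K × G =>
    edg ι (p.1, p.2, shf z p.1 + p.2) ((z p.1).1 (p.2, shf z p.1 + p.2))) with hM
  have hM1 : M ⊆ (strm ι z (List.finRange K)).toFinset := by
    intro e he
    rw [hM, mem_image] at he
    obtain ⟨⟨i, j⟩, _, rfl⟩ := he
    rw [List.mem_toFinset, mem_strm]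
    exact ⟨i, List.mem_finRange i, j, _, rfl⟩
  have hM2 : IsMatching M := by
    intro e he e' he' v hv hv'
    rw [hM, mem_image] at he he'
    obtain ⟨⟨i, j⟩, _, rfl⟩ := he
    obtain ⟨⟨i', j'⟩, _, rfl⟩ := he'
    have a := mem_edg ι _ _ v hv
    have a' := mem_edg ι _ _ v hv'
    simp only at a a'
    have : i = i' ∧ j = j' := by
      rcases a with a | a <;> rcases a' with a' | a'
      · have := ι.injective (a.symm.trans a')
        simpa using this
      · have := ι.injective (a.symm.trans a')
        simp at this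
      · have := ι.injective (a.symm.trans a')
        simp at this
      · have := ι.injective (a.symm.trans a')
        simp only [Sum.inr.injEq, Prod.mk.injEq] at this
        obtain ⟨rfl, h, _⟩ := this
        exact ⟨rfl, add_left_cancel h⟩
    obtain ⟨rfl, rfl⟩ := this
    rfl
  have hM3 : ff (edg ι) (shf z) M = Fintype.card G := by
    apply ff_opt _ hK
    intro i j
    rw [mem_idx]
    exact ⟨(z i).1 (j, shf z i + j), by rw [hM, mem_image]; exact ⟨(i, j), mem_univ _, rfl⟩⟩
  -- the output
  have hO1 : ff (edg ι) (shf z) O ≤ Fintype.card G * (((K : ℝ) + 1) / (2 * K)) +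
      (univ.biUnion (fun I => hits ι O I (shf z I))).card := by
    apply ff_alg _ hK
    · intro j0 hj0 i hi
      apply hj0
      rw [mem_biUnion]
      exact ⟨i, mem_univ _, by rw [mem_hits]; exact hi⟩
    · intro i j b b' hb hb'
      rw [mem_idx] at hb hb'
      obtain ⟨β, hβ⟩ := hb
      obtain ⟨β', hβ'⟩ := hb'
      have := h2 _ hβ _ hβ' (ι (Sum.inl (i, j))) (by simp [edg]) (by simp [edg])
      have := (edg_inj ι this).1
      simpa using this
  have hO2 : (univ.biUnion (fun I => hits ι O I (shf z I))).card ≤ K * h := by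
    refine card_biUnion_le.trans ?_
    calc ∑ I : Fin K, (hits ι O I (shf z I)).card ≤ ∑ _I : Fin K, h :=
          sum_le_sum (fun I _ => (hcon I).le)
      _ = K * h := by simp
  have hO2' : ((univ.biUnion (fun I => hits ι O I (shf z I))).card : ℝ) ≤ K * h := by
    exact_mod_cast hO2
  have := h3 M hM1 hM2
  rw [hM3] at this
  have h4 : α * ff (edg ι) (shf z) O ≤
      α * (Fintype.card G * (((K : ℝ) + 1) / (2 * K)) + K * h) :=
    mul_le_mul_of_nonneg_left (by linarith) hα
  linarith

/-- For fixed other phases, few choices of the bits and of the shift of phase `I` lead to a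
successful output with many special elements of this phase. -/
lemma phase_bound {s : ℕ} (ι : (Fin K × G) ⊕ (Fin K × G × Bool) ↪ Fin n)
    (A : Alg n s) (α : ℝ) (h k : ℕ) (I : Fin K) (z0 : Fin K → (G × G → Bool) × G)
    [DecidablePred fun z : Fin K → (G × G → Bool) × G =>
      A.Succeeds α (ff (edg ι) (shf z)) (strm ι z (List.finRange K)) ∧
        h ≤ (hits ι (A.output (ff (edg ι) (shf z)) (strm ι z (List.finRange K))) I
          (shf z I)).card] :
    (∑ p : (G × G → Bool) × G, if (A.Succeeds α (ff (edg ι) (shf (Function.update z0 I p)))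
        (strm ι (Function.update z0 I p) (List.finRange K)) ∧
        h ≤ (hits ι (A.output (ff (edg ι) (shf (Function.update z0 I p)))
          (strm ι (Function.update z0 I p) (List.finRange K))) I
          (shf (Function.update z0 I p) I)).card) then 1 else 0) * 2 ^ (h * k) ≤
      Fintype.card (G × G → Bool) * k * 2 ^ (h * k) +
        Fintype.card G * (2 ^ s * 2 ^ Fintype.card G * Fintype.card (G × G → Bool)) := by
  classical
  -- split the list of the phases
  obtain ⟨pre, post, hsplit⟩ := List.append_of_mem (List.mem_finRange I)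
  have hpw := List.pairwise_lt_finRange K
  rw [hsplit, List.pairwise_append] at hpw
  obtain ⟨_, hpost, hpre⟩ := hpw
  have hpre' : ∀ a ∈ pre, a < I := fun a ha => hpre a ha I (by simp)
  have hpost' : ∀ b ∈ post, I < b := by
    rw [List.pairwise_cons] at hpost
    exact hpost.1
  have hnd : (pre ++ [I]).Nodup := by
    have h1 : (List.finRange K).Nodup := List.nodup_finRange K
    rw [hsplit] at h1
    have : (pre ++ [I]).Sublist (pre ++ I :: post) := by
      apply List.Sublist.append_left
      simp
    exact h1.sublist this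
  -- notation
  set F : (Fin K → (G × G → Bool) × G) → Finset (Sym2 (Fin n)) → ℝ := fun z => ff (edg ι) (shf z)
    with hF
  set σ : (G × G → Bool) → (Fin s → Bool) := fun x =>
    A.run (F z0) (strm ι (Function.update z0 I (x, 0)) (pre ++ [I])) with hσ
  set Φ : (Fin s → Bool) → G → Finset (Sym2 (Fin n)) := fun τ l =>
    A.out ((strm ι z0 post).foldl (fun σ e => A.step σ e (F (Function.update z0 I ((z0 I).1, l)))) τ)
      (F (Function.update z0 I ((z0 I).1, l))) with hΦ
  have hshf : ∀ x l, shf (Function.update z0 I (x, l)) =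
      shf (Function.update z0 I ((z0 I).1, l)) := by
    intro x l
    funext i
    unfold shf
    by_cases hi : i = I
    · subst hi; simp
    · rw [Function.update_of_ne hi, Function.update_of_ne hi]
  have hout : ∀ x l, A.output (F (Function.update z0 I (x, l)))
      (strm ι (Function.update z0 I (x, l)) (List.finRange K)) = Φ (σ x) l := by
    intro x l
    unfold Alg.output Alg.run
    have e1 : strm ι (Function.update z0 I (x, l)) (List.finRange K) =
        strm ι (Function.update z0 I (x, 0)) (pre ++ [I]) ++ strm ι z0 post := by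
      rw [hsplit]
      have : pre ++ I :: post = (pre ++ [I]) ++ post := by simp
      rw [this]
      unfold strm
      rw [List.flatMap_append]
      congr 1
      · apply List.flatMap_congr
        intro i hi
        by_cases hi : i = I
        · subst hi; simp
        · rw [Function.update_of_ne hi, Function.update_of_ne hi]
      · apply List.flatMap_congr
        intro i hi
        rw [Function.update_of_ne (hpost' i hi).ne']
    have e2 : F (Function.update z0 I (x, l)) = F (Function.update z0 I ((z0 I).1, l)) := by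
      rw [hF]
      simp only
      rw [hshf]
    rw [e1, List.foldl_append, e2]
    have e3 : List.foldl (fun σ e => A.step σ e (F (Function.update z0 I ((z0 I).1, l)))) A.init
        (strm ι (Function.update z0 I (x, 0)) (pre ++ [I])) = σ x := by
      rw [hσ]
      unfold Alg.run
      refine (A.legal _ _ _ (isStream_strm ι _ _ hnd) (ff_ms _ _) (ff_ms _ _) ?_).1
      intro S hS
      apply ff_local (edg ι) I
      · intro i hi
        unfold shf
        rw [Function.update_of_ne hi.ne]
      · intro y hy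
        rw [mem_idx] at hy
        obtain ⟨β, hβ⟩ := hy
        have := hS hβ
        rw [List.mem_toFinset, mem_strm] at this
        obtain ⟨i, hi, j, b, he⟩ := this
        have := (edg_inj ι he).1
        rw [this]
        simp only
        rw [List.mem_append] at hi
        rcases hi with hi | hi
        · exact (hpre' i hi).le
        · simp at hi
          exact hi.le
    rw [e3]
  -- apply the counting lemma
  have hcount := count_phase (G := G) σ (fun τ l => hits ι (Φ τ l) I l)
    (fun τ l x => ∀ j β, edg ι (I, j, l + j) β ∈ Φ τ l → β = x (j, l + j))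
    (by
      intro τ l x y hx hy j hj
      rw [mem_hits, mem_idx] at hj
      obtain ⟨β, hβ⟩ := hj
      rw [← hx j β hβ, ← hy j β hβ]) h k
  have hcardS : Fintype.card (Fin s → Bool) = 2 ^ s := by simp
  rw [hcardS] at hcount
  refine le_trans (Nat.mul_le_mul_right _ ?_) hcount
  rw [card_filter]
  refine sum_le_sum (fun p _ => ?_)
  obtain ⟨x, l⟩ := p
  by_cases hp : (A.Succeeds α (ff (edg ι) (shf (Function.update z0 I (x, l))))
        (strm ι (Function.update z0 I (x, l)) (List.finRange K)) ∧
        h ≤ (hits ι (A.output (ff (edg ι) (shf (Function.update z0 I (x, l))))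
          (strm ι (Function.update z0 I (x, l)) (List.finRange K))) I
          (shf (Function.update z0 I (x, l)) I)).card)
  · rw [if_pos hp]
    obtain ⟨hp1, hp2⟩ := hp
    have hI : shf (Function.update z0 I (x, l)) I = l := by simp [shf]
    rw [hI] at hp2
    have ho := hout x l
    rw [hF] at ho
    simp only at ho
    rw [ho] at hp2
    have hR : ∀ j β, edg ι (I, j, l + j) β ∈ Φ (σ x) l → β = x (j, l + j) := by
      intro j β hβ
      have h1 := hp1.1
      rw [ho] at h1
      have h2 := h1 hβ
      rw [List.mem_toFinset, mem_strm] at h2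
      obtain ⟨i, _, j', b', he⟩ := h2
      obtain ⟨h3, h4⟩ := edg_inj ι he
      simp only [Prod.mk.injEq] at h3
      obtain ⟨h5, h6, h7⟩ := h3
      rw [h4, ← h5, ← h6, ← h7]
      simp
    rw [if_pos ⟨hR, hp2⟩]
  · rw [if_neg hp]
    exact Nat.zero_le _

end Pool.Agent.H106R3.SM
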