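import Pool.Agent.H106R3.SM.Fun

/-!
# Values of the hard functions
-/

namespace Pool.Agent.H106R3.SM

open Finset

variable {K : ℕ} {G : Type*} [AddCommGroup G] [Fintype G] [DecidableEq G]
variable {E : Type*} [DecidableEq E]

lemma ff_opt (ed : Fin K × G × G → Bool → E) (hK : 0 < K) (l : Fin K → G) (S : Finset E)
    (h : ∀ i j, (i, j, l i + j) ∈ idx ed S) : ff ed l S = Fintype.card G := by
  have hK' : (K : ℝ) ≠ 0 := by positivity
  unfold ff
  have : ∀ j0 : G, ∑ z0 : Fin K, (1 / (K : ℝ)) * (1 - ∏ y ∈ idx ed S, ww l j0 z0 y) = 1 := by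
    intro j0
    have : ∀ z0 : Fin K, (1 / (K : ℝ)) * (1 - ∏ y ∈ idx ed S, ww l j0 z0 y) = 1 / K := by
      intro z0
      rw [prod_eq_zero (h z0 j0)]
      · ring
      · simp [ww]
    rw [sum_congr rfl (fun z0 _ => this z0), sum_const, card_univ, Fintype.card_fin, nsmul_eq_mul]
    field_simp
  rw [sum_congr rfl (fun j0 _ => this j0)]
  simp

lemma prod_rr (z0 : Fin K) : ∏ i ∈ Finset.Iic z0, rr K i = ((K : ℝ) - (z0 : ℕ) - 1) / K := by
  have h1 : ∀ t : ℕ, t < K → ∏ i ∈ Finset.range (t + 1), ((K : ℝ) - (i : ℕ) - 1) / ((K : ℝ) - (i : ℕ)) =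
      ((K : ℝ) - (t : ℕ) - 1) / K := by
    intro t
    induction t with
    | zero => intro _; simp
    | succ t ih =>
      intro ht
      rw [prod_range_succ, ih (by omega)]
      have : ((t : ℝ) + 1) + 1 ≤ K := by exact_mod_cast ht
      have h2 : (K : ℝ) - t - 1 ≠ 0 := by linarith
      have h3 : (K : ℝ) ≠ 0 := by
        have : (0 : ℝ) ≤ t := Nat.cast_nonneg t
        linarith
      have h4 : (K : ℝ) - (t + 1) ≠ 0 := by linarith
      push_cast
      rw [div_mul_div_comm, div_eq_div_iff (by positivity) h3]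
      · ring
  have h2 := h1 z0 z0.2
  rw [← h2]
  have h3 : (Finset.Iic z0).map Fin.valEmbedding = Finset.range ((z0 : ℕ) + 1) := by
    rw [Fin.map_valEmbedding_Iic]
    ext i
    simp
  rw [← h3, prod_map]
  rfl

lemma ff_alg (ed : Fin K × G × G → Bool → E) (hK : 0 < K) (l : Fin K → G) (S : Finset E)
    (hit : Finset G) (hhit : ∀ j0, j0 ∉ hit → ∀ i, (i, j0, l i + j0) ∉ idx ed S)
    (hone : ∀ i j b b', (i, j, b) ∈ idx ed S → (i, j, b') ∈ idx ed S → b = b') :
    ff ed l S ≤ Fintype.card G * (((K : ℝ) + 1) / (2 * K)) + hit.card := by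
  have hK0 : (0 : ℝ) < K := by exact_mod_cast hK
  have hK' : (K : ℝ) ≠ 0 := hK0.ne'
  unfold ff
  have h1 : ∀ j0 : G, ∑ z0 : Fin K, (1 / (K : ℝ)) * (1 - ∏ y ∈ idx ed S, ww l j0 z0 y) ≤ 1 := by
    intro j0
    calc _ ≤ ∑ _z0 : Fin K, (1 / (K : ℝ)) := by
          refine sum_le_sum (fun z0 _ => ?_)
          have := prod01 (ww l j0 z0) (ww_nonneg l j0 z0) (ww_le_one l j0 z0) (idx ed S)
          have h2 : (0 : ℝ) < 1 / K := by positivity
          nlinarith
      _ = 1 := by
          rw [sum_const, card_univ, Fintype.card_fin, nsmul_eq_mul]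
          field_simp
  have hsum : ∑ z0 : Fin K, (1 / (K : ℝ)) * (1 - ((K : ℝ) - (z0 : ℕ) - 1) / K) =
      ((K : ℝ) + 1) / (2 * K) := by
    have e : ∀ z0 : Fin K, (1 / (K : ℝ)) * (1 - ((K : ℝ) - (z0 : ℕ) - 1) / K) =
        (1 / (K : ℝ) ^ 2) * (((z0 : ℕ) : ℝ) + 1) := by
      intro z0
      field_simp
      ring
    rw [sum_congr rfl (fun z0 _ => e z0), ← mul_sum, sum_add_distrib]
    rw [Fin.sum_univ_eq_sum_range (fun i => (i : ℝ)) K]
    have g : ∑ i ∈ Finset.range K, (i : ℝ) = (K : ℝ) * ((K : ℝ) - 1) / 2 := by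
      have h := Finset.sum_range_id_mul_two K
      have h' : (∑ i ∈ Finset.range K, (i : ℝ)) * 2 = (K : ℝ) * ((K : ℝ) - 1) := by
        have := congrArg (fun x : ℕ => (x : ℝ)) h
        push_cast at this
        rw [Nat.cast_sub (by omega)] at this
        simpa using this
      linarith
    rw [g]
    simp only [sum_const, card_univ, Fintype.card_fin, nsmul_eq_mul, mul_one]
    field_simp
    ring
  have h2 : ∀ j0 : G, j0 ∉ hit →
      ∑ z0 : Fin K, (1 / (K : ℝ)) * (1 - ∏ y ∈ idx ed S, ww l j0 z0 y) ≤ ((K : ℝ) + 1) / (2 * K) := by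
    intro j0 hj0
    rw [← hsum]
    refine sum_le_sum (fun z0 _ => ?_)
    have hprod : ((K : ℝ) - (z0 : ℕ) - 1) / K ≤ ∏ y ∈ idx ed S, ww l j0 z0 y := by
      rw [← prod_rr z0]
      set F := (idx ed S).filter (fun y => y.2.1 = j0 ∧ y.1 ≤ z0) with hF
      have e1 : ∏ y ∈ idx ed S, ww l j0 z0 y = ∏ y ∈ F, ww l j0 z0 y := by
        symm
        apply prod_subset (filter_subset _ _)
        intro y hy hyF
        rw [mem_filter] at hyF
        unfold ww
        by_cases hj : y.2.1 = j0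
        · have hz : ¬ y.1 ≤ z0 := fun h => hyF ⟨hy, hj, h⟩
          have hz' : y.1 ≠ z0 := fun h => hz h.le
          simp [hz, hz']
        · simp [hj]
      have e2 : ∏ y ∈ F, ww l j0 z0 y = ∏ y ∈ F, rr K y.1 := by
        refine prod_congr rfl (fun y hy => ?_)
        rw [hF, mem_filter] at hy
        have hne : y.2.2 ≠ l y.1 + j0 := by
          intro h
          apply hhit j0 hj0 y.1
          have : (y.1, j0, l y.1 + j0) = y := by
            rw [← h, ← hy.2.1]
          rw [this]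
          exact hy.1
        unfold ww
        rw [if_pos hy.2.1, if_neg hne, if_pos hy.2.2]
      have e3 : ∏ y ∈ F, rr K y.1 = ∏ i ∈ F.image (fun y => y.1), rr K i := by
        rw [prod_image]
        intro y hy y' hy' hyy
        rw [hF, mem_coe, mem_filter] at hy hy'
        obtain ⟨i, j, b⟩ := y
        obtain ⟨i', j', b'⟩ := y'
        simp only at hy hy' hyy
        obtain ⟨hy1, hy2, _⟩ := hy
        obtain ⟨hy1', hy2', _⟩ := hy'
        subst hyy hy2 hy2'
        rw [hone _ _ _ _ hy1 hy1']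
      rw [e1, e2, e3]
      apply prod_anti _ rr_nonneg rr_le_one
      intro i hi
      rw [mem_image] at hi
      obtain ⟨y, hy, rfl⟩ := hi
      rw [hF, mem_filter] at hy
      exact Finset.mem_Iic.2 hy.2.2
    have h2 : (0 : ℝ) < 1 / K := by positivity
    nlinarith
  have hnn : (0 : ℝ) ≤ ((K : ℝ) + 1) / (2 * K) := by positivity
  calc _ ≤ ∑ j0 : G, (((K : ℝ) + 1) / (2 * K) + if j0 ∈ hit then 1 else 0) := by
        refine sum_le_sum (fun j0 _ => ?_)
        by_cases hj : j0 ∈ hit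
        · rw [if_pos hj]
          linarith [h1 j0]
        · rw [if_neg hj, add_zero]
          exact h2 j0 hj
    _ = _ := by
        rw [sum_add_distrib, sum_const, card_univ, nsmul_eq_mul, sum_ite_mem, univ_inter, sum_const,
          nsmul_eq_mul, mul_one]

end Pool.Agent.H106R3.SM
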